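import Pool.Agent.Helper67.SC.Final
import Pool.Agent.Helper67.CF.Exist

/-!
The conformal walk dimension of the Brownian motion on the Sierpinski carpet is not attained.
-/

open MeasureTheory Pool.Agent.Helper67.SC

/-- The standard Sierpinski carpet `K` has a canonical form (a self-similar, symmetric, regular
resistance form). For every canonical form `(E, D)`, every metric `θ` in the conformal gauge and
every finite Borel measure `μ` of full support, the space `(K, θ, μ)` with the time-changed form does
not satisfy the parabolic Harnack inequality with exponent `2`. -/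
theorem Pool.Agent.Results.MP_2923e9_pr.NotAttained.result :
    (∃ (D : Set (K → ℝ)) (E : (K → ℝ) → (K → ℝ) → ℝ), IsCanonicalForm D E) ∧
    ∀ (D : Set (K → ℝ)) (E : (K → ℝ) → (K → ℝ) → ℝ), IsCanonicalForm D E →
      ∀ θ : K → K → ℝ, InGauge θ → ∀ (μ : Measure K) [IsFiniteMeasure μ],
        (∀ U : Set K, IsOpen U → U.Nonempty → 0 < μ U) → ¬ ParabolicHarnack D E θ μ 2 :=
  ⟨Pool.Agent.Helper67.CF.exists_canonical, fun _ _ hE _ hθ μ _ hμ => final hE hθ μ hμ⟩
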